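import Pool.Agent.Helper10.BD.Goals

/-!
# Project BD (MP_eec6f5_gt): `X_u` is a compact regular hypersurface (helper25)
-/

open scoped ContDiff
open Real

namespace Pool.Agent.Helper25.BD.REG

open Pool.Agent.Helper50.BC (E)
open Pool.Agent.Helper10.BD

theorem t : Pool.Agent.Helper10.BD.G_REG := by
  intro q r j u hu hc hr
  constructor
  · obtain ⟨M, hM⟩ := hc.bddAbove_image hu.continuous.continuousOn
    have hsub : XX r j u ⊆ {x | 0 ≤ u x} ×ˢ
        (Metric.closedBall (0 : E r) (|M| + 2) ×ˢ Metric.closedBall (0 : E j) (|M| + 2)) := by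
      intro p hp
      have hp' : ‖p.2.2‖ ^ 2 + (‖p.2.1‖ ^ 2 - 1) ^ 2 = u p.1 := hp
      have h0 : 0 ≤ u p.1 := by rw [← hp']; positivity
      have h1 : u p.1 ≤ M := hM ⟨p.1, h0, rfl⟩
      have h2 := le_abs_self M
      have h3 := abs_nonneg M
      have h4 := norm_nonneg p.2.2
      have h5 := norm_nonneg p.2.1
      refine ⟨h0, ?_, ?_⟩
      · rw [mem_closedBall_zero_iff]
        have h6 : (‖p.2.1‖ ^ 2 - 1) ^ 2 ≤ |M| := by nlinarith [sq_nonneg ‖p.2.2‖]
        by_contra h7
        push Not at h7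
        have h8 : (|M| + 2) ^ 2 ≤ ‖p.2.1‖ ^ 2 := by nlinarith
        have h9 : |M| + 3 ≤ ‖p.2.1‖ ^ 2 - 1 := by nlinarith
        nlinarith
      · rw [mem_closedBall_zero_iff]
        have h6 : ‖p.2.2‖ ^ 2 ≤ |M| := by nlinarith [sq_nonneg (‖p.2.1‖ ^ 2 - 1)]
        nlinarith
    refine (hc.prod ((isCompact_closedBall _ _).prod (isCompact_closedBall _ _))).of_isClosed_subset
      ?_ hsub
    exact isClosed_eq (by fun_prop) (hu.continuous.comp continuous_fst)
  · intro p hp
    have hp' : ‖p.2.2‖ ^ 2 + (‖p.2.1‖ ^ 2 - 1) ^ 2 = u p.1 := hp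
    by_cases hv : p.2.2 = 0
    · by_cases hy : p.2.1 = 0 ∨ ‖p.2.1‖ ^ 2 = 1
      · have h1 : u p.1 = 0 ∨ u p.1 = 1 := by
          rcases hy with hy | hy
          · right
            rw [← hp', hv, hy]
            simp
          · left
            rw [← hp', hv, hy]
            simp
        have h2 := hr _ h1
        obtain ⟨w, hw⟩ : ∃ w, fderiv ℝ u p.1 w ≠ 0 := by
          by_contra h3
          push Not at h3
          exact h2 (ContinuousLinearMap.ext h3)
        refine ⟨(w, 0, 0), ?_⟩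
        unfold TT
        simpa using fun h3 => hw h3.symm
      · push Not at hy
        refine ⟨(0, p.2.1, 0), ?_⟩
        unfold TT
        have h3 : ‖p.2.1‖ ^ 2 - 1 ≠ 0 := sub_ne_zero.2 hy.2
        simp [hy.1, h3]
    · refine ⟨(0, 0, p.2.2), ?_⟩
      unfold TT
      simpa using hv

end Pool.Agent.Helper25.BD.REG
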